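import Mathlib

/-!
Selective high divergence does not pass from `βX` to `X`: for the `Σ`-product `X` in the Cantor
cube `2^𝔠` one has `βX = 2^𝔠`, which is selectively highly divergent, while `X` is not.
-/

set_option autoImplicit false

open Set Filter Topology

namespace Pool.Agent.Results.MP_8ff099_gt.NotFromBeta

universe u

/-- No subsequence of the sequence `x` converges to any point of the space. -/
def NoConvSubseq {X : Type u} [TopologicalSpace X] (x : ℕ → X) : Prop :=
  ∀ φ : ℕ → ℕ, StrictMono φ → ∀ a : X, ¬ Tendsto (x ∘ φ) atTop (𝓝 a)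

/-- Selectively highly divergent (SHD) spaces: for every sequence `(U n)` of nonempty open sets
one can choose points `x n ∈ U n` such that `(x n)` has no convergent subsequences. -/
def SHD (X : Type u) [TopologicalSpace X] : Prop :=
  ∀ U : ℕ → Set X, (∀ n, IsOpen (U n) ∧ (U n).Nonempty) →
    ∃ x : ℕ → X, (∀ n, x n ∈ U n) ∧ NoConvSubseq x

/-- The points with countable support in the Cantor cube `I → Bool`. -/
def Sig (I : Type) : Set (I → Bool) := {x | {i | x i = true}.Countable}

/-- The points with countable support are dense. -/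
lemma dense_Sig (I : Type) : Dense (Sig I) := by
  rw [dense_iff_inter_open]
  rintro U hU ⟨x, hx⟩
  obtain ⟨F, u, hu, huU⟩ := isOpen_pi_iff.1 hU x hx
  classical
  refine ⟨fun i => if i ∈ F then x i else false, ?_, ?_⟩
  · apply huU
    intro i hi
    have hi' : i ∈ F := hi
    simp only [hi', if_true]
    exact (hu i hi).2
  · refine F.countable_toSet.mono ?_
    intro i hi
    by_contra h
    have h' : i ∉ F := h
    have hi' : (if i ∈ F then x i else false) = true := hi
    simp [h'] at hi'

/-- Extension of a function on `J` by `false`. -/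
noncomputable def ext {I : Type} (J : Set I) (y : J → Bool) : I → Bool := by
  classical
  exact fun i => if h : i ∈ J then y ⟨i, h⟩ else false

lemma continuous_ext {I : Type} (J : Set I) : Continuous (ext J) := by
  refine continuous_pi fun i => ?_
  by_cases h : i ∈ J
  · have : (fun y : J → Bool => ext J y i) = fun y => y ⟨i, h⟩ := by
      funext y
      simp [ext, h]
    rw [this]
    exact continuous_apply _
  · have : (fun y : J → Bool => ext J y i) = fun _ => false := by
      funext y
      simp [ext, h]
    rw [this]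
    exact continuous_const

lemma ext_mem {I : Type} {J : Set I} (hJ : J.Countable) (y : J → Bool) : ext J y ∈ Sig I := by
  refine hJ.mono ?_
  intro i hi
  by_contra h
  have hi' : ext J y i = true := hi
  simp [ext, h] at hi'

lemma ext_restrict {I : Type} {J : Set I} {x : I → Bool} (hx : {i | x i = true} ⊆ J) :
    ext J (fun j => x j) = x := by
  funext i
  by_cases h : i ∈ J
  · simp [ext, h]
  · have : x i ≠ true := fun h' => h (hx h')
    simp [ext, h, Bool.eq_false_iff.2 this]

/-- The subspace of the points with countable support is sequentially compact. -/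
lemma Sig_seqCompact {I : Type} (x : ℕ → Sig I) :
    ∃ φ : ℕ → ℕ, StrictMono φ ∧ ∃ a : Sig I, Tendsto (x ∘ φ) atTop (𝓝 a) := by
  set J : Set I := ⋃ n, {i | (x n).1 i = true} with hJ
  have hJc : J.Countable := countable_iUnion fun n => (x n).2
  have : Countable J := hJc.to_subtype
  obtain ⟨y, φ, hφ, hy⟩ := CompactSpace.tendsto_subseq (fun n => fun j : J => (x n).1 j)
  refine ⟨φ, hφ, ⟨ext J y, ext_mem hJc y⟩, ?_⟩
  rw [tendsto_subtype_rng]
  have h1 := ((continuous_ext J).tendsto y).comp hy
  refine h1.congr fun n => ?_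
  show ext J (fun j : J => (x (φ n)).1 j) = (x (φ n)).1
  exact ext_restrict fun i hi => mem_iUnion.2 ⟨φ n, hi⟩

lemma not_SHD_Sig (I : Type) : ¬ SHD (Sig I) := by
  intro h
  obtain ⟨x, _, hx⟩ := h (fun _ => univ) fun _ =>
    ⟨isOpen_univ, ⟨⟨fun _ => false, by simp [Sig]⟩, mem_univ _⟩⟩
  obtain ⟨φ, hφ, a, ha⟩ := Sig_seqCompact x
  exact hx φ hφ a ha

/-- The Cantor cube with exponent `𝔠` is selectively highly divergent. -/
lemma SHD_cube : SHD (Set ℕ × ℝ → Bool) := by
  intro U hU
  have h1 : ∀ n, ∃ (z : Set ℕ × ℝ → Bool) (F : Set (Set ℕ × ℝ)), F.Countable ∧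
      ∀ y : Set ℕ × ℝ → Bool, (∀ i ∈ F, y i = z i) → y ∈ U n := by
    intro n
    obtain ⟨z, hz⟩ := (hU n).2
    obtain ⟨F, u, hu, huU⟩ := isOpen_pi_iff.1 (hU n).1 z hz
    refine ⟨z, F, F.countable_toSet, fun y hy => huU fun i hi => ?_⟩
    rw [hy i hi]
    exact (hu i hi).2
  choose z F hF hz using h1
  classical
  set S : Set (Set ℕ × ℝ) := ⋃ n, F n with hS
  have hSc : S.Countable := countable_iUnion hF
  set y : ℕ → Set ℕ × ℝ → Bool := fun n i => if i ∈ S then z n i else decide (n ∈ i.1) with hy
  refine ⟨y, fun n => hz n _ fun i hi => ?_, ?_⟩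
  · have : i ∈ S := mem_iUnion.2 ⟨n, hi⟩
    simp [hy, this]
  · intro φ hφ a ha
    -- the set of every second element of the subsequence
    set A : Set ℕ := range fun k => φ (2 * k) with hA
    obtain ⟨t, ht⟩ : ∃ t : ℝ, (A, t) ∉ S := by
      by_contra hcon
      push Not at hcon
      have h2 : (univ : Set ℝ).Countable := by
        have h3 : ((fun t : ℝ => (A, t)) ⁻¹' S).Countable :=
          hSc.preimage fun s t hst => (Prod.ext_iff.1 hst).2
        exact h3.mono fun t _ => hcon t
      exact not_countable_univ h2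
    have h2 : Tendsto (fun k => y (φ k) (A, t)) atTop (𝓝 (a (A, t))) :=
      (tendsto_pi_nhds.1 ha) (A, t)
    have h3 : ∀ k, y (φ k) (A, t) = decide (φ k ∈ A) := by
      intro k
      simp [hy, ht]
    have h4 : ∀ k, φ k ∈ A ↔ Even k := by
      intro k
      constructor
      · rintro ⟨l, hl⟩
        have : 2 * l = k := hφ.injective hl
        exact ⟨l, by omega⟩
      · rintro ⟨l, hl⟩
        exact ⟨l, by show φ (2 * l) = φ k; rw [hl]; congr 1; omega⟩
    rw [nhds_discrete, tendsto_pure] at h2
    obtain ⟨N, hN⟩ := eventually_atTop.1 h2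
    have h5 := hN (2 * N) (by omega)
    have h6 := hN (2 * N + 1) (by omega)
    rw [h3] at h5 h6
    have h7 : decide (φ (2 * N) ∈ A) = true := by
      rw [decide_eq_true_iff, h4]
      exact even_two_mul N
    have h8 : decide (φ (2 * N + 1) ∈ A) = false := by
      rw [decide_eq_false_iff_not, h4]
      exact Nat.not_even_two_mul_add_one N
    rw [h7] at h5
    rw [h8, ← h5] at h6
    exact absurd h6 (by simp)

/-! ### The Stone-Čech compactification of the `Σ`-product -/

/-- The retraction onto the functions supported by a countable set. -/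
noncomputable def retr {I : Type} {A : Set I} (hA : A.Countable) (x : I → Bool) : Sig I :=
  ⟨ext A fun j => x j, ext_mem hA _⟩

lemma continuous_retr {I : Type} {A : Set I} (hA : A.Countable) :
    Continuous (retr hA) := by
  refine Continuous.subtype_mk ?_ _
  exact (continuous_ext A).comp (continuous_pi fun j => continuous_apply _)

lemma retr_apply_mem {I : Type} {A : Set I} (hA : A.Countable) (x : I → Bool) {i : I}
    (hi : i ∈ A) : (retr hA x).1 i = x i := by
  simp [retr, ext, hi]

lemma retr_apply_not_mem {I : Type} {A : Set I} (hA : A.Countable) (x : I → Bool) {i : I}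
    (hi : i ∉ A) : (retr hA x).1 i = false := by
  simp [retr, ext, hi]

/-- For each `ε > 0`, a continuous function on the `Σ`-product depends up to `ε` on countably many
coordinates. -/
lemma depends_eps {I : Type} {f : Sig I → ℝ} (hf : Continuous f) {ε : ℝ} (hε : 0 < ε) :
    ∃ (A : Set I) (hA : A.Countable), ∀ x : Sig I, |f x - f (retr hA x.1)| < ε := by
  by_contra hcon
  push Not at hcon
  -- `hcon : ∀ A, ∀ hA : A.Countable, ∃ x, ε ≤ |f x - f (retr hA x)|`
  choose x hx using hcon
  let A : ℕ → {A : Set I // A.Countable} := fun n =>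
    Nat.rec ⟨∅, countable_empty⟩ (fun _ A => ⟨A.1 ∪ {i | (x A.1 A.2).1 i = true},
      A.2.union (x A.1 A.2).2⟩) n
  have hA : ∀ n, (A (n + 1)).1 = (A n).1 ∪ {i | (x (A n).1 (A n).2).1 i = true} := fun n => rfl
  have hmono : Monotone fun n => (A n).1 := monotone_nat_of_le_succ fun n => by
    show (A n).1 ⊆ (A (n + 1)).1
    rw [hA]; exact subset_union_left
  set y : ℕ → Sig I := fun n => x (A n).1 (A n).2 with hy
  obtain ⟨φ, hφ, a, ha⟩ := Sig_seqCompact y
  have ha' : Tendsto (fun k => retr (A (φ k)).2 (y (φ k)).1) atTop (𝓝 a) := by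
    rw [tendsto_subtype_rng, tendsto_pi_nhds]
    intro i
    have h1 : Tendsto (fun k => (y (φ k)).1 i) atTop (𝓝 (a.1 i)) :=
      (tendsto_pi_nhds.1 (tendsto_subtype_rng.1 ha)) i
    refine h1.congr' ?_
    by_cases hi : ∃ m, i ∈ (A m).1
    · obtain ⟨m, hm⟩ := hi
      filter_upwards [eventually_ge_atTop m] with k hk
      exact (retr_apply_mem _ _ (hmono (hk.trans hφ.le_apply) hm)).symm
    · push Not at hi
      filter_upwards with k
      rw [retr_apply_not_mem _ _ (hi _)]
      by_contra h2
      apply hi (φ k + 1)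
      rw [hA]
      exact Or.inr (Bool.eq_true_of_not_eq_false h2)
  have h2 := ((hf.tendsto a).comp ha).sub ((hf.tendsto a).comp ha')
  rw [sub_self] at h2
  have h3 := ((tendsto_order.1 h2.abs).2 ε (by simpa using hε)).exists
  obtain ⟨k, hk⟩ := h3
  exact absurd hk (not_lt.2 (hx (A (φ k)).1 (A (φ k)).2))

/-- A continuous real function on the `Σ`-product depends on countably many coordinates. -/
lemma depends {I : Type} {f : Sig I → ℝ} (hf : Continuous f) :
    ∃ (A : Set I) (hA : A.Countable), ∀ x : Sig I, f x = f (retr hA x.1) := by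
  choose B hB hBf using fun n : ℕ => depends_eps hf (Nat.one_div_pos_of_nat (n := n) (α := ℝ))
  refine ⟨⋃ n, B n, countable_iUnion hB, fun x => ?_⟩
  set z : Sig I := retr (countable_iUnion hB) x.1 with hz
  have h1 : ∀ n, retr (hB n) z.1 = retr (hB n) x.1 := by
    intro n
    apply Subtype.ext
    funext i
    by_cases hi : i ∈ B n
    · rw [retr_apply_mem _ _ hi, retr_apply_mem _ _ hi, hz,
        retr_apply_mem _ _ (mem_iUnion.2 ⟨n, hi⟩)]
    · rw [retr_apply_not_mem _ _ hi, retr_apply_not_mem _ _ hi]
  by_contra hne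
  have hpos : 0 < |f x - f z| := abs_pos.2 (sub_ne_zero.2 hne)
  obtain ⟨n, hn⟩ := exists_nat_one_div_lt (half_pos hpos)
  have h2 := hBf n x
  have h3 := hBf n z
  rw [h1 n] at h3
  have h4 : |f x - f z| ≤ |f x - f (retr (hB n) x.1)| + |f z - f (retr (hB n) x.1)| := by
    have : f x - f z = (f x - f (retr (hB n) x.1)) - (f z - f (retr (hB n) x.1)) := by ring
    rw [this]
    exact abs_sub _ _
  linarith

/-- The canonical map of `β Σ` to the Cantor cube. -/
noncomputable def toCube (I : Type) : StoneCech (Sig I) → (I → Bool) :=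
  stoneCechExtend (continuous_subtype_val : Continuous (Subtype.val : Sig I → (I → Bool)))

lemma continuous_toCube (I : Type) : Continuous (toCube I) := continuous_stoneCechExtend _

lemma toCube_unit {I : Type} (x : Sig I) : toCube I (stoneCechUnit x) = x.1 :=
  congrFun (stoneCechExtend_extends
    (continuous_subtype_val : Continuous (Subtype.val : Sig I → (I → Bool)))) x

lemma toCube_injective (I : Type) : Function.Injective (toCube I) := by
  intro p p' hpp
  by_contra hne
  obtain ⟨g, hg0, hg1, _⟩ := exists_continuous_zero_one_of_isClosed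
    (isClosed_singleton (x := p)) (isClosed_singleton (x := p'))
    (disjoint_singleton.2 hne)
  have hf : Continuous fun x : Sig I => g (stoneCechUnit x) :=
    g.continuous.comp continuous_stoneCechUnit
  obtain ⟨A, hA, hAf⟩ := depends hf
  have h1 : (g : StoneCech (Sig I) → ℝ) = fun z => g (stoneCechUnit (retr hA (toCube I z))) := by
    apply denseRange_stoneCechUnit.equalizer g.continuous
    · exact hf.comp ((continuous_retr hA).comp (continuous_toCube I))
    · funext x
      show g (stoneCechUnit x) = g (stoneCechUnit (retr hA (toCube I (stoneCechUnit x))))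
      rw [toCube_unit]
      exact hAf x
  have h2 : g p = g (stoneCechUnit (retr hA (toCube I p))) := congrFun h1 p
  have h3 : g p' = g (stoneCechUnit (retr hA (toCube I p'))) := congrFun h1 p'
  have h4 : g p = 0 := hg0 rfl
  have h5 : g p' = 1 := hg1 rfl
  rw [hpp, ← h3, h4, h5] at h2
  exact zero_ne_one h2

lemma toCube_surjective (I : Type) : Function.Surjective (toCube I) := by
  rw [← range_eq_univ]
  have h1 : IsClosed (range (toCube I)) := (isCompact_range (continuous_toCube I)).isClosed
  have h2 : Sig I ⊆ range (toCube I) := fun x hx => ⟨stoneCechUnit ⟨x, hx⟩, toCube_unit _⟩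
  have h3 := (dense_Sig I).mono h2
  rw [← h1.closure_eq]
  exact h3.closure_eq

/-- The homeomorphism of `β Σ` and the Cantor cube. -/
noncomputable def betaHomeo (I : Type) : StoneCech (Sig I) ≃ₜ (I → Bool) :=
  Continuous.homeoOfEquivCompactToT2
    (f := Equiv.ofBijective (toCube I) ⟨toCube_injective I, toCube_surjective I⟩)
    (continuous_toCube I)

lemma SHD_of_homeo {X Y : Type} [TopologicalSpace X] [TopologicalSpace Y] (e : X ≃ₜ Y)
    (h : SHD Y) : SHD X := by
  intro U hU
  obtain ⟨y, hy, hy'⟩ := h (fun n => e.symm ⁻¹' (U n)) fun n =>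
    ⟨(hU n).1.preimage e.symm.continuous, by
      obtain ⟨x, hx⟩ := (hU n).2
      exact ⟨e x, by simpa using hx⟩⟩
  refine ⟨fun n => e.symm (y n), hy, ?_⟩
  intro φ hφ a ha
  apply hy' φ hφ (e a)
  have := (e.continuous.tendsto a).comp ha
  refine this.congr fun n => ?_
  simp

lemma not_compact_Sig : ¬ CompactSpace (Sig (Set ℕ × ℝ)) := by
  intro h
  have h1 : IsClosed (Sig (Set ℕ × ℝ)) := (isCompact_iff_compactSpace.2 h).isClosed
  have h2 : (fun _ => true) ∈ Sig (Set ℕ × ℝ) := by
    rw [← h1.closure_eq, (dense_Sig _).closure_eq]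
    exact mem_univ _
  have h3 : (univ : Set (Set ℕ × ℝ)).Countable := h2.mono fun i _ => rfl
  have h4 : (univ : Set ℝ).Countable := by
    have h5 : ((fun t : ℝ => ((∅ : Set ℕ), t)) ⁻¹' univ).Countable :=
      h3.preimage fun s t hst => (Prod.ext_iff.1 hst).2
    exact h5.mono fun t _ => mem_univ _
  exact not_countable_univ h4

/-- **Selective high divergence does not pass from `βX` to `X`**: there is a noncompact Tychonoff
space `X` which is not SHD although its Stone-Čech compactification is SHD. -/
theorem result : ∃ (X : Type) (_ : TopologicalSpace X),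
    T35Space X ∧ ¬ CompactSpace X ∧ SHD (StoneCech X) ∧ ¬ SHD X :=
  ⟨Sig (Set ℕ × ℝ), inferInstance, inferInstance, not_compact_Sig,
    SHD_of_homeo (betaHomeo _) SHD_cube, not_SHD_Sig _⟩

end Pool.Agent.Results.MP_8ff099_gt.NotFromBeta
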